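import Mathlib

/-!
Line compressions for sets of monomials (exponent vectors `Fin n → ℕ` of a fixed degree).
-/

namespace H73FR

open Finset Pointwise

variable {n : ℕ}

/-- exponent vectors of degree `k` -/
def Mon (n k : ℕ) : Finset (Fin n → ℕ) := Finset.piAntidiag Finset.univ k

lemma mem_Mon {k : ℕ} {a : Fin n → ℕ} : a ∈ Mon n k ↔ ∑ i, a i = k := by simp [Mon]

/-- The coordinates away from `p, q`. -/
def key (p q : Fin n) (a : Fin n → ℕ) : Fin n → ℕ := fun i => if i = p ∨ i = q then 0 else a i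

lemma key_add (p q : Fin n) (a b : Fin n → ℕ) : key p q (a + b) = key p q a + key p q b := by
  funext i
  simp only [key, Pi.add_apply]
  split_ifs <;> simp

lemma sum_key {p q : Fin n} (hpq : p ≠ q) (a : Fin n → ℕ) (w : Fin n → ℕ) :
    ∑ i, w i * a i = ∑ i, w i * key p q a i + w p * a p + w q * a q := by
  have h1 : ∀ i, w i * a i = w i * key p q a i + (if i = p then w p * a p else 0)
      + (if i = q then w q * a q else 0) := by
    intro i
    by_cases h : i = p
    · subst h; simp [key, hpq]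
    · by_cases h' : i = q
      · subst h'; simp [key, h]
      · simp [key, h, h']
  rw [Finset.sum_congr rfl fun i _ => h1 i]
  simp [Finset.sum_add_distrib]

lemma sum_key1 {p q : Fin n} (hpq : p ≠ q) (a : Fin n → ℕ) :
    ∑ i, a i = ∑ i, key p q a i + a p + a q := by
  have := sum_key hpq a (fun _ => 1)
  simpa using this

lemma eq_of_key {p q : Fin n} (hpq : p ≠ q) {a b : Fin n → ℕ} (hs : ∑ i, a i = ∑ i, b i)
    (hk : key p q a = key p q b) (hp : a p = b p) : a = b := by
  have h1 := sum_key1 hpq a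
  have h2 := sum_key1 hpq b
  rw [hk] at h1
  have hq : a q = b q := by omega
  funext i
  by_cases h : i = p
  · rw [h, hp]
  · by_cases h' : i = q
    · rw [h', hq]
    · have := congrFun hk i
      simpa [key, h, h'] using this

/-- The part of `A` on the line through `w`. -/
def fib (p q : Fin n) (A : Finset (Fin n → ℕ)) (w : Fin n → ℕ) : Finset (Fin n → ℕ) :=
  A.filter (fun a => key p q a = w)

lemma mem_fib {p q : Fin n} {A : Finset (Fin n → ℕ)} {w a : Fin n → ℕ} :
    a ∈ fib p q A w ↔ a ∈ A ∧ key p q a = w := by simp [fib]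

/-- compression -/
def compr (p q : Fin n) (k : ℕ) (A : Finset (Fin n → ℕ)) : Finset (Fin n → ℕ) :=
  (Mon n k).filter (fun a => a p < (fib p q A (key p q a)).card)

lemma mem_compr {p q : Fin n} {k : ℕ} {A : Finset (Fin n → ℕ)} {a : Fin n → ℕ} :
    a ∈ compr p q k A ↔ (∑ i, a i = k) ∧ a p < (fib p q A (key p q a)).card := by
  simp [compr, mem_Mon]

lemma compr_sub (p q : Fin n) (k : ℕ) (A : Finset (Fin n → ℕ)) : compr p q k A ⊆ Mon n k :=
  Finset.filter_subset _ _

/-- the point on the line of `b` with `p`-coordinate `t` -/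
def pt (p q : Fin n) (b : Fin n → ℕ) (t : ℕ) : Fin n → ℕ :=
  fun i => if i = p then t else if i = q then b p + b q - t else b i

lemma pt_p (p q : Fin n) (b : Fin n → ℕ) (t : ℕ) : pt p q b t p = t := by simp [pt]

lemma pt_q {p q : Fin n} (hpq : p ≠ q) (b : Fin n → ℕ) (t : ℕ) :
    pt p q b t q = b p + b q - t := by simp [pt, Ne.symm hpq]

lemma pt_key (p q : Fin n) (b : Fin n → ℕ) (t : ℕ) : key p q (pt p q b t) = key p q b := by
  funext i
  by_cases h : i = p
  · simp [key, h]
  · by_cases h' : i = q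
    · simp [key, h']
    · simp [key, h, h', pt]

lemma pt_sum {p q : Fin n} (hpq : p ≠ q) (b : Fin n → ℕ) {t : ℕ} (ht : t ≤ b p + b q) :
    ∑ i, pt p q b t i = ∑ i, b i := by
  rw [sum_key1 hpq (pt p q b t), sum_key1 hpq b, pt_key, pt_p, pt_q hpq]
  omega

/-- `p`-coordinates are injective on lines -/
lemma injOn_fib {p q : Fin n} (hpq : p ≠ q) {k : ℕ} {A : Finset (Fin n → ℕ)} (hA : A ⊆ Mon n k)
    (w : Fin n → ℕ) : Set.InjOn (fun a : Fin n → ℕ => a p) (fib p q A w) := by
  intro a ha b hb hab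
  rw [Finset.mem_coe, mem_fib] at ha hb
  refine eq_of_key hpq ?_ (ha.2.trans hb.2.symm) hab
  rw [mem_Mon.1 (hA ha.1), mem_Mon.1 (hA hb.1)]

lemma card_fib_le {p q : Fin n} (hpq : p ≠ q) {k : ℕ} {A : Finset (Fin n → ℕ)} (hA : A ⊆ Mon n k)
    {b : Fin n → ℕ} (hb : ∑ i, b i = k) : (fib p q A (key p q b)).card ≤ b p + b q + 1 := by
  have h1 : (fib p q A (key p q b)).card ≤ (range (b p + b q + 1)).card := by
    apply Finset.card_le_card_of_injOn (fun a : Fin n → ℕ => a p) _ (injOn_fib hpq hA _)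
    intro a ha
    rw [Finset.mem_coe, mem_fib] at ha
    have e1 := sum_key1 hpq a
    have e2 := sum_key1 hpq b
    rw [ha.2, mem_Mon.1 (hA ha.1)] at e1
    simp only [coe_range, Set.mem_Iio]
    omega
  simpa using h1

lemma card_fib_compr {p q : Fin n} (hpq : p ≠ q) {k : ℕ} {A : Finset (Fin n → ℕ)}
    (hA : A ⊆ Mon n k) (w : Fin n → ℕ) :
    (fib p q (compr p q k A) w).card = (fib p q A w).card := by
  rcases Finset.eq_empty_or_nonempty (fib p q A w) with h0 | ⟨b, hb⟩
  · rw [h0, Finset.card_empty, Finset.card_eq_zero]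
    apply Finset.eq_empty_of_forall_notMem
    intro a ha
    rw [mem_fib, mem_compr] at ha
    obtain ⟨⟨-, h2⟩, h3⟩ := ha
    rw [h3, h0] at h2
    simp at h2
  · rw [mem_fib] at hb
    obtain ⟨hbA, hbw⟩ := hb
    have hbk := mem_Mon.1 (hA hbA)
    set s := (fib p q A w).card with hs
    have hle : s ≤ b p + b q + 1 := by
      rw [hs, ← hbw]; exact card_fib_le hpq hA hbk
    have h1 : (fib p q (compr p q k A) w) = (range s).image (pt p q b) := by
      ext a
      rw [mem_fib, mem_compr, Finset.mem_image]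
      constructor
      · rintro ⟨⟨h1, h2⟩, h3⟩
        rw [h3] at h2
        refine ⟨a p, by simpa using h2, ?_⟩
        have h4 : a p ≤ b p + b q := by omega
        refine eq_of_key hpq ?_ ?_ (pt_p _ _ _ _)
        · rw [pt_sum hpq b h4, hbk, h1]
        · rw [pt_key, hbw, h3]
      · rintro ⟨t, ht, rfl⟩
        rw [Finset.mem_range] at ht
        have ht' : t ≤ b p + b q := by omega
        refine ⟨⟨?_, ?_⟩, ?_⟩
        · rw [pt_sum hpq b ht', hbk]
        · rw [pt_p, pt_key, hbw]; exact ht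
        · rw [pt_key, hbw]
    rw [h1, Finset.card_image_of_injective, Finset.card_range]
    intro t t' htt
    have := congrFun htt p
    simpa [pt_p] using this

lemma card_eq_sum_fib (p q : Fin n) {k : ℕ} {A : Finset (Fin n → ℕ)} (hA : A ⊆ Mon n k)
    {R : Type*} [AddCommMonoid R] (F : (Fin n → ℕ) → R) :
    ∑ a ∈ A, F a = ∑ w ∈ (Mon n k).image (key p q), ∑ a ∈ fib p q A w, F a := by
  unfold fib
  rw [Finset.sum_fiberwise_of_maps_to]
  intro a ha
  exact Finset.mem_image_of_mem _ (hA ha)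

lemma card_compr {p q : Fin n} (hpq : p ≠ q) {k : ℕ} {A : Finset (Fin n → ℕ)}
    (hA : A ⊆ Mon n k) : (compr p q k A).card = A.card := by
  rw [Finset.card_eq_sum_ones, Finset.card_eq_sum_ones,
    card_eq_sum_fib p q hA, card_eq_sum_fib p q (compr_sub p q k A)]
  apply Finset.sum_congr rfl
  intro w _
  rw [← Finset.card_eq_sum_ones, ← Finset.card_eq_sum_ones]
  exact card_fib_compr hpq hA w

/-- compression of a sumset contains the sumset of the compressions -/
lemma compr_add {p q : Fin n} (hpq : p ≠ q) {k l : ℕ} {A B : Finset (Fin n → ℕ)}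
    (hA : A ⊆ Mon n k) (hB : B ⊆ Mon n l) :
    compr p q k A + compr p q l B ⊆ compr p q (k + l) (A + B) := by
  intro x hx
  obtain ⟨a, ha, b, hb, rfl⟩ := Finset.mem_add.1 hx
  rw [mem_compr] at ha hb ⊢
  refine ⟨?_, ?_⟩
  · rw [← ha.1, ← hb.1, ← Finset.sum_add_distrib]; rfl
  · rw [key_add]
    set P := (fib p q A (key p q a)).image (fun c : Fin n → ℕ => c p) with hP
    set Q := (fib p q B (key p q b)).image (fun c : Fin n → ℕ => c p) with hQ
    have hPc : P.card = (fib p q A (key p q a)).card :=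
      Finset.card_image_of_injOn (injOn_fib hpq hA _)
    have hQc : Q.card = (fib p q B (key p q b)).card :=
      Finset.card_image_of_injOn (injOn_fib hpq hB _)
    have hPn : P.Nonempty := by
      rw [← Finset.card_pos, hPc]; omega
    have hQn : Q.Nonempty := by
      rw [← Finset.card_pos, hQc]; omega
    have hcd : P.card + Q.card - 1 ≤ (P + Q).card :=
      cauchy_davenport_add_of_linearOrder_isCancelAdd hPn hQn
    have hsub : P + Q ⊆ (fib p q (A + B) (key p q a + key p q b)).image
        (fun c : Fin n → ℕ => c p) := by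
      intro t ht
      obtain ⟨u, hu, v, hv, rfl⟩ := Finset.mem_add.1 ht
      rw [hP, Finset.mem_image] at hu
      rw [hQ, Finset.mem_image] at hv
      obtain ⟨u', hu', rfl⟩ := hu
      obtain ⟨v', hv', rfl⟩ := hv
      rw [mem_fib] at hu' hv'
      rw [Finset.mem_image]
      refine ⟨u' + v', ?_, rfl⟩
      rw [mem_fib]
      exact ⟨Finset.add_mem_add hu'.1 hv'.1, by rw [key_add, hu'.2, hv'.2]⟩
    have h3 := (Finset.card_le_card hsub).trans Finset.card_image_le
    have h4 : (a + b) p = a p + b p := rfl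
    rw [h4]
    omega

lemma compr_Mon {p q : Fin n} (hpq : p ≠ q) (k : ℕ) : compr p q k (Mon n k) = Mon n k := by
  apply Finset.Subset.antisymm (compr_sub _ _ _ _)
  intro a ha
  rw [mem_compr]
  refine ⟨mem_Mon.1 ha, ?_⟩
  have h1 : (range (a p + 1)).image (pt p q a) ⊆ fib p q (Mon n k) (key p q a) := by
    intro x hx
    obtain ⟨t, ht, rfl⟩ := Finset.mem_image.1 hx
    rw [Finset.mem_range] at ht
    rw [mem_fib, mem_Mon]
    exact ⟨by rw [pt_sum hpq a (by omega)]; exact mem_Mon.1 ha, pt_key _ _ _ _⟩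
  have h2 := Finset.card_le_card h1
  rw [Finset.card_image_of_injective, Finset.card_range] at h2
  · omega
  · intro t t' htt
    have := congrFun htt p
    simpa [pt_p] using this

lemma compr_mono {p q : Fin n} {k : ℕ} {A B : Finset (Fin n → ℕ)} (h : A ⊆ B) :
    compr p q k A ⊆ compr p q k B := by
  intro a ha
  rw [mem_compr] at ha ⊢
  exact ⟨ha.1, ha.2.trans_le (Finset.card_le_card (Finset.filter_subset_filter _ h))⟩

lemma add_sub_Mon {k l : ℕ} {A B : Finset (Fin n → ℕ)} (hA : A ⊆ Mon n k) (hB : B ⊆ Mon n l) :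
    A + B ⊆ Mon n (k + l) := by
  intro x hx
  obtain ⟨a, ha, b, hb, rfl⟩ := Finset.mem_add.1 hx
  rw [mem_Mon]
  have h1 := mem_Mon.1 (hA ha)
  have h2 := mem_Mon.1 (hB hb)
  rw [← h1, ← h2, ← Finset.sum_add_distrib]; rfl

/-- main inequality for one compression -/
lemma card_compr_sum {p q : Fin n} (hpq : p ≠ q) {k : ℕ} (g : ℕ) {A : Finset (Fin n → ℕ)}
    (hA : A ⊆ Mon n k) :
    (compr p q k A + compr p q k A + Mon n g).card ≤ (A + A + Mon n g).card := by
  have h1 : compr p q k A + compr p q k A + Mon n g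
      ⊆ compr p q (k + k + g) (A + A + Mon n g) := by
    calc compr p q k A + compr p q k A + Mon n g
        ⊆ compr p q (k + k) (A + A) + compr p q g (Mon n g) := by
          rw [compr_Mon hpq]
          exact Finset.add_subset_add_right (compr_add hpq hA hA)
      _ ⊆ compr p q (k + k + g) (A + A + Mon n g) :=
          compr_add hpq (add_sub_Mon hA hA) (Finset.Subset.refl _)
  exact (Finset.card_le_card h1).trans_eq
    (card_compr hpq (add_sub_Mon (add_sub_Mon hA hA) (Finset.Subset.refl _)))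

/-- the sum of the `p`-coordinates drops strictly unless `A` is compressed -/
lemma sum_fib_le {p q : Fin n} (hpq : p ≠ q) {k : ℕ} {A : Finset (Fin n → ℕ)}
    (hA : A ⊆ Mon n k) (w : Fin n → ℕ) :
    ∑ a ∈ fib p q (compr p q k A) w, a p ≤ ∑ a ∈ fib p q A w, a p ∧
    (fib p q (compr p q k A) w ≠ fib p q A w →
      ∑ a ∈ fib p q (compr p q k A) w, a p < ∑ a ∈ fib p q A w, a p) := by
  set C := fib p q (compr p q k A) w with hC
  set B := fib p q A w with hB
  have hcard : C.card = B.card := card_fib_compr hpq hA w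
  have hd : (C \ B).card = (B \ C).card := by
    have e1 := Finset.card_sdiff_add_card_inter C B
    have e2 := Finset.card_sdiff_add_card_inter B C
    rw [Finset.inter_comm] at e2
    omega
  have hlow : ∀ a ∈ C \ B, a p + 1 ≤ B.card := by
    intro a ha
    rw [Finset.mem_sdiff, hC, mem_fib, mem_compr] at ha
    obtain ⟨⟨⟨-, h2⟩, h3⟩, -⟩ := ha
    rw [h3] at h2
    exact h2
  have hhigh : ∀ a ∈ B \ C, B.card ≤ a p := by
    intro a ha
    rw [Finset.mem_sdiff] at ha
    obtain ⟨h1, h2⟩ := ha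
    by_contra hcon
    apply h2
    rw [hB, mem_fib] at h1
    rw [hC, mem_fib, mem_compr]
    refine ⟨⟨mem_Mon.1 (hA h1.1), ?_⟩, h1.2⟩
    rw [h1.2]
    exact not_le.1 hcon
  have s1 : ∑ a ∈ C \ B, (a p + 1) ≤ (C \ B).card * B.card := by
    have := Finset.sum_le_card_nsmul _ _ _ hlow
    simpa using this
  have s2 : (B \ C).card * B.card ≤ ∑ a ∈ B \ C, a p := by
    have := Finset.card_nsmul_le_sum _ _ _ hhigh
    simpa using this
  rw [Finset.sum_add_distrib] at s1
  simp only [Finset.sum_const, smul_eq_mul, mul_one] at s1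
  have t1 := Finset.sum_inter_add_sum_sdiff C B (fun a : Fin n → ℕ => a p)
  have t2 := Finset.sum_inter_add_sum_sdiff B C (fun a : Fin n → ℕ => a p)
  rw [Finset.inter_comm] at t2
  rw [hd] at s1
  constructor
  · omega
  · intro hne
    have : 0 < (B \ C).card := by
      rw [Finset.card_pos]
      by_contra hcon
      rw [Finset.not_nonempty_iff_eq_empty, Finset.sdiff_eq_empty_iff_subset] at hcon
      exact hne (Finset.eq_of_subset_of_card_le hcon hcard.le).symm
    omega

lemma sum_compr_lt {p q : Fin n} (hpq : p ≠ q) {k : ℕ} {A : Finset (Fin n → ℕ)}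
    (hA : A ⊆ Mon n k) (hne : compr p q k A ≠ A) :
    ∑ a ∈ compr p q k A, a p < ∑ a ∈ A, a p := by
  rw [card_eq_sum_fib p q hA, card_eq_sum_fib p q (compr_sub p q k A)]
  apply Finset.sum_lt_sum
  · intro w _
    exact (sum_fib_le hpq hA w).1
  · by_contra hcon
    push Not at hcon
    apply hne
    ext a
    have hstep : ∀ w ∈ (Mon n k).image (key p q),
        fib p q (compr p q k A) w = fib p q A w := by
      intro w hw
      by_contra h
      exact absurd ((sum_fib_le hpq hA w).2 h) (not_lt.2 (hcon w hw))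
    constructor
    · intro ha
      have hk := Finset.mem_image_of_mem (key p q) (compr_sub p q k A ha)
      have : a ∈ fib p q (compr p q k A) (key p q a) := mem_fib.2 ⟨ha, rfl⟩
      rw [hstep _ hk] at this
      exact (mem_fib.1 this).1
    · intro ha
      have hk := Finset.mem_image_of_mem (key p q) (hA ha)
      have : a ∈ fib p q A (key p q a) := mem_fib.2 ⟨ha, rfl⟩
      rw [← hstep _ hk] at this
      exact (mem_fib.1 this).1

/-- the potential -/
def pot (A : Finset (Fin n → ℕ)) : ℕ := ∑ a ∈ A, ∑ i : Fin n, (n - (i : ℕ)) * a i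

lemma pot_compr_lt {p q : Fin n} (hpq : p < q) {k : ℕ} {A : Finset (Fin n → ℕ)}
    (hA : A ⊆ Mon n k) (hne : compr p q k A ≠ A) : pot (compr p q k A) < pot A := by
  have hne' : p ≠ q := ne_of_lt hpq
  -- pointwise formula
  have hpt : ∀ a : Fin n → ℕ, ∑ i, a i = k → ∑ i : Fin n, (n - (i : ℕ)) * a i
      = (∑ i : Fin n, (n - (i : ℕ)) * key p q a i + (n - (q : ℕ)) * (k - ∑ i, key p q a i))
        + ((q : ℕ) - p) * a p := by
    intro a ha
    rw [sum_key hne' a (fun i : Fin n => n - (i : ℕ))]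
    have h1 := sum_key1 hne' a
    have h2 : k - ∑ i, key p q a i = a p + a q := by omega
    rw [h2]
    have hq : (q : ℕ) < n := q.2
    have hpq' : (p : ℕ) < q := hpq
    have h3 : n - (p : ℕ) = (n - (q : ℕ)) + ((q : ℕ) - p) := by omega
    rw [h3]
    ring
  have hgen : ∀ B : Finset (Fin n → ℕ), B ⊆ Mon n k → pot B
      = ∑ w ∈ (Mon n k).image (key p q), (fib p q B w).card *
          (∑ i : Fin n, (n - (i : ℕ)) * w i + (n - (q : ℕ)) * (k - ∑ i, w i))
        + ((q : ℕ) - p) * ∑ a ∈ B, a p := by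
    intro B hB
    unfold pot
    rw [Finset.sum_congr rfl fun a ha => hpt a (mem_Mon.1 (hB ha)), Finset.sum_add_distrib,
      ← Finset.mul_sum]
    congr 1
    rw [card_eq_sum_fib p q hB]
    apply Finset.sum_congr rfl
    intro w _
    rw [Finset.sum_congr rfl (g := fun _ => (∑ i : Fin n, (n - (i : ℕ)) * w i
      + (n - (q : ℕ)) * (k - ∑ i, w i)))]
    · simp
    · intro a ha
      rw [mem_fib] at ha
      rw [ha.2]
  rw [hgen A hA, hgen _ (compr_sub p q k A)]
  have h4 := sum_compr_lt hne' hA hne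
  have h5 : 0 < (q : ℕ) - p := by
    have : (p : ℕ) < q := hpq
    omega
  have h6 : ∀ w ∈ (Mon n k).image (key p q), (fib p q (compr p q k A) w).card *
          (∑ i : Fin n, (n - (i : ℕ)) * w i + (n - (q : ℕ)) * (k - ∑ i, w i))
      = (fib p q A w).card *
          (∑ i : Fin n, (n - (i : ℕ)) * w i + (n - (q : ℕ)) * (k - ∑ i, w i)) := by
    intro w _
    rw [card_fib_compr hne' hA w]
  rw [Finset.sum_congr rfl h6]
  exact Nat.add_lt_add_left (Nat.mul_lt_mul_of_pos_left h4 h5) _

/-- Stability: mass can be moved from a coordinate to any later one. -/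
def Stable (A : Finset (Fin n → ℕ)) : Prop :=
  ∀ p q : Fin n, p < q → ∀ a ∈ A, 1 ≤ a p → a - Pi.single p 1 + Pi.single q 1 ∈ A

lemma stable_of_compr {k : ℕ} {A : Finset (Fin n → ℕ)} (hA : A ⊆ Mon n k)
    (h : ∀ p q : Fin n, p < q → compr p q k A = A) : Stable A := by
  intro p q hpq a ha hap
  have hne : p ≠ q := ne_of_lt hpq
  have h1 : a - Pi.single p 1 + Pi.single q 1 = pt p q a (a p - 1) := by
    funext i
    by_cases hi : i = p
    · subst hi; simp [pt, hne]
    · by_cases hi' : i = q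
      · subst hi'
        simp only [pt, Pi.add_apply, Pi.sub_apply, Pi.single_eq_same, if_neg hi, if_true,
          Pi.single_eq_of_ne hi]
        omega
      · simp [pt, hi, hi']
  rw [h1]
  have h2 := ha
  rw [← h p q hpq, mem_compr] at h2
  rw [← h p q hpq, mem_compr, pt_p, pt_key]
  refine ⟨?_, by omega⟩
  rw [pt_sum hne a (by omega), h2.1]

/-- Compressing to a stable set. -/
theorem exists_stable {k : ℕ} (g : ℕ) {A : Finset (Fin n → ℕ)} (hA : A ⊆ Mon n k) :
    ∃ A' : Finset (Fin n → ℕ), A' ⊆ Mon n k ∧ A'.card = A.card ∧ Stable A' ∧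
      (A' + A' + Mon n g).card ≤ (A + A + Mon n g).card := by
  classical
  let S := (Mon n k).powerset.filter
    (fun B => B.card = A.card ∧ (B + B + Mon n g).card ≤ (A + A + Mon n g).card)
  have hS : A ∈ S := by simp [S, hA]
  obtain ⟨B, hB, hmin⟩ := S.exists_min_image pot ⟨A, hS⟩
  simp only [S, Finset.mem_filter, Finset.mem_powerset] at hB hmin
  obtain ⟨hB1, hB2, hB3⟩ := hB
  refine ⟨B, hB1, hB2, stable_of_compr hB1 ?_, hB3⟩
  intro p q hpq
  by_contra hne
  have h1 := pot_compr_lt hpq hB1 hne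
  have h2 := hmin (compr p q k B) ⟨compr_sub _ _ _ _, by rw [card_compr (ne_of_lt hpq) hB1, hB2],
    (card_compr_sum (ne_of_lt hpq) g hB1).trans hB3⟩
  omega

end H73FR
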